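import Mathlib

set_option autoImplicit false

namespace Pool.Agent.Work.MP_a1ab50_an.P

/-- The Taylor coefficients of `P / Q` at the origin have summable `p`-th powers. -/
def PowSummable {n : ℕ} (p : ℝ) (P Q : MvPolynomial (Fin n) ℝ) : Prop :=
  Summable fun k : Fin n →₀ ℕ =>
    |MvPowerSeries.coeff k ((P : MvPowerSeries (Fin n) ℝ) * (Q : MvPowerSeries (Fin n) ℝ)⁻¹)| ^ p

end Pool.Agent.Work.MP_a1ab50_an.P
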