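import Pool.Agent.Work.MP_a1ab50_an.T.Sharp
import Pool.Agent.Work.MP_a1ab50_an.P.Defs

/-! Below the threshold there is a counterexample with one common zero on the torus. -/

set_option autoImplicit false

namespace Pool.Agent.Work.MP_a1ab50_an.P

open Pool.Agent.Work.MP_a1ab50_an Pool.Agent.Work.MP_a1ab50_an.T
open Real MeasureTheory Finset MvPolynomial
open scoped NNReal

variable {d m N k : ℕ}

/-- The coefficient of the `k`-th power of the variable `0` is absolutely summable. -/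
def Sl (G : MvPowerSeries (Fin (d + 1)) ℝ) (k : ℕ) : Prop :=
  Summable fun l : Fin d →₀ ℕ => |MvPowerSeries.coeff (Finsupp.cons k l) G|

section
variable {G : MvPowerSeries (Fin (d + 1)) ℝ}

theorem sl_of_sv {v : ℂ} (h : Sv G k 1 v) : Sl G k := by
  simpa [Sl] using summable_norm_iff.2 h.summable

theorem sv_of_sl (h : Sl G k) : ∃ v, Sv G k 1 v :=
  ⟨_, (Summable.of_norm (by simpa [Sl] using h)).hasSum⟩

theorem sl_div (j : Fin d) (h : Sl (fa m (MvPowerSeries.X j.succ) * G) k) : Sl G k := by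
  classical
  set a : (Fin d →₀ ℕ) → ℝ := fun l => |MvPowerSeries.coeff (Finsupp.cons k l) G| with ha
  have e : fa m (MvPowerSeries.X j.succ) * G
      = (4 ^ m : ℝ) • ((2 : ℝ) • G - MvPowerSeries.X j.succ * G) := by
    simp only [fa, Algebra.smul_def, map_pow, map_ofNat]
    ring
  have h1 : ∀ l, 2 * a l ≤ |MvPowerSeries.coeff (Finsupp.cons k l)
      (fa m (MvPowerSeries.X j.succ) * G)| +
      if 1 ≤ l j then a (l - Finsupp.single j 1) else 0 := fun l => by
    have h2 : |MvPowerSeries.coeff (Finsupp.cons k l) (MvPowerSeries.X j.succ * G)|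
        = if 1 ≤ l j then a (l - Finsupp.single j 1) else 0 := by
      have h3 : Finsupp.cons k l - Finsupp.single j.succ 1
          = Finsupp.cons k (l - Finsupp.single j 1) := by
        ext i
        refine Fin.cases ?_ (fun i => ?_) i <;> simp [Finsupp.single_apply]
      rw [MvPowerSeries.X_def, MvPowerSeries.coeff_monomial_mul, h3]
      simp only [Finsupp.single_le_iff, Finsupp.cons_succ, one_mul]
      split_ifs <;> simp [ha]
    rw [← h2, e, map_smul, map_sub, map_smul, smul_eq_mul, smul_eq_mul, abs_mul,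
      abs_of_pos (by positivity : (0 : ℝ) < 4 ^ m)]
    have h4 := abs_sub_abs_le_abs_sub (2 * MvPowerSeries.coeff (Finsupp.cons k l) G)
      (MvPowerSeries.coeff (Finsupp.cons k l) (MvPowerSeries.X j.succ * G))
    rw [abs_mul, abs_two] at h4
    have h5 := le_mul_of_one_le_left (abs_nonneg (2 * MvPowerSeries.coeff (Finsupp.cons k l) G -
      MvPowerSeries.coeff (Finsupp.cons k l) (MvPowerSeries.X j.succ * G)))
      (one_le_pow₀ (by norm_num) : (1 : ℝ) ≤ 4 ^ m)
    simp only [ha]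
    linarith
  have a0 : ∀ l, 0 ≤ a l := fun l => abs_nonneg _
  refine summable_of_sum_le (c := ∑' l : Fin d →₀ ℕ, |MvPowerSeries.coeff (Finsupp.cons k l)
    (fa m (MvPowerSeries.X j.succ) * G)|) a0 fun u => ?_
  have h2 : ∑ l ∈ u, a l ≤ ∑ l ∈ Iic (u.sup id), a l :=
    sum_le_sum_of_subset_of_nonneg (fun l hl => mem_Iic.2 (le_sup (f := id) hl)) fun l _ _ => a0 l
  have h3 := sum_le_sum fun l (_ : l ∈ Iic (u.sup id)) => h1 l
  rw [sum_add_distrib, ← mul_sum, ← sum_filter] at h3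
  have h4 := Summable.sum_le_tsum (Iic (u.sup id)) (fun l _ => abs_nonneg _) h
  have h5 : ∑ l ∈ (Iic (u.sup id)).filter fun l => 1 ≤ l j, a (l - Finsupp.single j 1)
      ≤ ∑ l ∈ Iic (u.sup id), a l := by
    rw [← sum_image (g := fun l => l - Finsupp.single j 1) fun l hl l' hl' e =>
      tsub_inj_left (Finsupp.single_le_iff.2 (mem_filter.1 hl).2)
        (Finsupp.single_le_iff.2 (mem_filter.1 hl').2) e]
    refine sum_le_sum_of_subset_of_nonneg (fun l hl => ?_) fun l _ _ => a0 l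
    obtain ⟨l', h6, rfl⟩ := mem_image.1 hl
    exact mem_Iic.2 (tsub_le_self.trans (mem_Iic.1 (mem_filter.1 h6).1))
  linarith

theorem sl_prod (s : Finset (Fin d)) : ∀ {G : MvPowerSeries (Fin (d + 1)) ℝ},
    Sl ((∏ j ∈ s, fa m (MvPowerSeries.X j.succ)) * G) k → Sl G k := by
  classical
  induction s using Finset.induction_on with
  | empty => simp
  | insert j s hj ih =>
    intro G h
    rw [prod_insert hj, mul_comm (fa m _), mul_assoc] at h
    exact sl_div j (ih h)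

theorem slices (hG : (Q0 d m : MvPowerSeries (Fin (d + 1)) ℝ) * G = P0 d N) (k : ℕ) : Sl G k := by
  have e : rename Fin.succ (pr d (fa m)) = Q0 d m + rename Fin.succ (pr d (fb m)) * X 0 :=
    (sub_add_cancel _ _).symm
  have e2 : ((rename Fin.succ (pr d (fa m)) : MvPolynomial (Fin (d + 1)) ℝ) :
      MvPowerSeries (Fin (d + 1)) ℝ) = ∏ j : Fin d, fa m (MvPowerSeries.X j.succ) := by
    rw [pr, map_prod, ← coeToMvPowerSeries.ringHom_apply, map_prod]
    simp only [fa, map_mul, map_pow, map_sub, map_ofNat, rename_X,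
      coeToMvPowerSeries.ringHom_apply, coe_X]
  have key : (∏ j : Fin d, fa m (MvPowerSeries.X j.succ)) * G =
      ((rename Fin.succ (pr d (fn N)) : MvPolynomial (Fin (d + 1)) ℝ) :
        MvPowerSeries (Fin (d + 1)) ℝ) * 1 +
      ((rename Fin.succ (pr d (fb m)) : MvPolynomial (Fin (d + 1)) ℝ) :
        MvPowerSeries (Fin (d + 1)) ℝ) * (MvPowerSeries.X 0 * G) := by
    rw [← e2, e, MvPolynomial.coe_add, MvPolynomial.coe_mul, coe_X, add_mul, hG, mul_assoc,
      mul_one, P0]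
  induction k with
  | zero =>
    refine sl_prod (m := m) univ ?_
    rw [key]
    exact sl_of_sv ((Sv.poly _ Sv.one_zero).add (Sv.poly _ Sv.X0_zero))
  | succ k ih =>
    obtain ⟨v, hv⟩ := sv_of_sl ih
    refine sl_prod (m := m) univ ?_
    rw [key]
    exact sl_of_sv ((Sv.poly _ Sv.one_succ).add (Sv.poly _ hv.X0_succ))

end

theorem bes {E : ℝ → ℂ} (hE : Continuous E) (h1 : ∀ θ, ‖E θ‖ = 1) {a b : ℝ} (a0 : 0 ≤ a)
    (hab : a ≤ b) (b1 : b ≤ 1) (s : Finset ℕ) :
    ∑ i ∈ s, ‖∫ θ in a..b, zz θ ^ i * E θ‖ ^ 2 ≤ 8 := by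
  have hp : (0 : ℝ) < 2 * π := by positivity
  have p3 := pi_gt_three
  have hsub : Set.Ioc a b ⊆ Set.Ioc 0 (2 * π) := Set.Ioc_subset_Ioc a0 (by linarith)
  have hL : MemLp (Set.indicator (Set.Ioc a b) E) 2 (volume.restrict (Set.Ioc 0 (2 * π))) :=
    MemLp.of_bound (hE.aestronglyMeasurable.indicator measurableSet_Ioc) 1 (.of_forall fun θ =>
      (norm_indicator_le_norm_self _ _).trans (h1 θ).le)
  have h2 := hasSum_sq_fourierCoeffOn hp hL
  have h3 : ∫ x in (0 : ℝ)..2 * π, ‖Set.indicator (Set.Ioc a b) E x‖ ^ 2 = b - a := by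
    have : ∀ x, ‖Set.indicator (Set.Ioc a b) E x‖ ^ 2
        = Set.indicator (Set.Ioc a b) (fun _ => (1 : ℝ)) x := fun x => by
      by_cases hx : x ∈ Set.Ioc a b <;> simp [hx, h1]
    simp only [this]
    rw [intervalIntegral.integral_of_le hp.le, setIntegral_indicator measurableSet_Ioc,
      Set.inter_eq_right.2 hsub, ← intervalIntegral.integral_of_le hab]
    simp
  have h4 : ∀ i : ℕ, ‖∫ θ in a..b, zz θ ^ i * E θ‖ ^ 2 = (2 * π) ^ 2 *
      ‖fourierCoeffOn hp (Set.indicator (Set.Ioc a b) E) (-i)‖ ^ 2 := fun i => by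
    have : ∀ x : ℝ, fourier (- -(i : ℤ)) (x : AddCircle (2 * π - 0)) •
        Set.indicator (Set.Ioc a b) E x
        = Set.indicator (Set.Ioc a b) (fun θ => zz θ ^ i * E θ) x := fun x => by
      rw [Set.indicator_mul_right, smul_eq_mul, fourier_coe_apply, zz, ← Complex.exp_nat_mul]
      refine congrArg (fun y => Complex.exp y * _) ?_
      have : (π : ℂ) ≠ 0 := Complex.ofReal_ne_zero.2 pi_ne_zero
      push_cast
      field_simp
      ring
    rw [fourierCoeffOn_eq_integral]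
    simp only [this]
    rw [intervalIntegral.integral_of_le hp.le, setIntegral_indicator measurableSet_Ioc,
      Set.inter_eq_right.2 hsub, ← intervalIntegral.integral_of_le hab, norm_smul, ← mul_pow,
      sub_zero, Real.norm_of_nonneg (by positivity), ← mul_assoc, mul_one_div_cancel hp.ne',
      one_mul]
  have h5 := sum_le_hasSum (s.map ⟨fun i : ℕ => -(i : ℤ), fun i j h => by simpa using h⟩)
    (fun _ _ => by positivity) h2
  rw [sum_map, h3, sub_zero, smul_eq_mul] at h5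
  simp only [h4]
  rw [← mul_sum]
  refine (mul_le_mul_of_nonneg_left h5 (by positivity)).trans ?_
  rw [sq, mul_assoc, mul_inv_cancel_left₀ hp.ne']
  nlinarith [pi_le_four]

theorem bes_prod {t : ℕ → ℝ} {B : ℝ} (t0 : ∀ i, 0 ≤ t i) (h : ∀ s : Finset ℕ, ∑ i ∈ s, t i ≤ B)
    (T : Finset (Fin d →₀ ℕ)) : ∑ l ∈ T, ∏ j, t (l j) ≤ B ^ d := by
  have h1 := prod_univ_sum (fun _ : Fin d => T.biUnion fun l => univ.image l) fun _ i => t i
  have h2 : ∑ l ∈ T, ∏ j, t (l j)
      = ∑ x ∈ T.map Finsupp.equivFunOnFinite.toEmbedding, ∏ j, t (x j) := by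
    rw [sum_map]
    rfl
  rw [h2]
  refine (sum_le_sum_of_subset_of_nonneg (fun x hx => ?_) fun _ _ _ =>
    prod_nonneg fun _ _ => t0 _).trans (h1.symm.trans_le ?_)
  · obtain ⟨l, hl, rfl⟩ := mem_map.1 hx
    exact Fintype.mem_piFinset.2 fun j => mem_biUnion.2 ⟨l, hl, mem_image_of_mem _ (mem_univ j)⟩
  · rw [prod_const, card_univ, Fintype.card_fin]
    exact pow_le_pow_left₀ (sum_nonneg fun _ _ => t0 _) (h _) d

theorem young {a b τ lam ε p : ℝ} (a0 : 0 ≤ a) (b0 : 0 ≤ b) (bt : b ≤ τ) (l0 : 0 < lam)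
    (e0 : 0 < ε) (p1 : 1 ≤ p) (p2 : p ≤ 2) :
    a * b ≤ ε / 2 * b ^ 2 + a ^ p * (τ * lam ^ (1 - p) + lam ^ (2 - p) / (2 * ε)) := by
  have t0 := b0.trans bt
  rcases a0.eq_or_lt with rfl | a1
  · rw [zero_mul]
    positivity
  rw [mul_add]
  rcases le_total lam a with h | h
  · have h1 : a = a ^ p * a ^ (1 - p) := by rw [← Real.rpow_add a1]; simp
    have h2 := Real.rpow_le_rpow_of_nonpos l0 h (sub_nonpos.2 p1)
    have h3 : a * b ≤ a ^ p * (τ * lam ^ (1 - p)) :=
      calc a * b = a ^ p * (b * a ^ (1 - p)) := by linear_combination b * h1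
        _ ≤ _ := by gcongr
    have : 0 ≤ ε / 2 * b ^ 2 := by positivity
    have : 0 ≤ a ^ p * (lam ^ (2 - p) / (2 * ε)) := by positivity
    linarith
  · have h1 : a ^ 2 = a ^ p * a ^ (2 - p) := by rw [← Real.rpow_add a1]; simp
    have h2 := Real.rpow_le_rpow a0 h (sub_nonneg.2 p2)
    have h3 : a ^ 2 / (2 * ε) ≤ a ^ p * (lam ^ (2 - p) / (2 * ε)) := by
      rw [h1, mul_div_assoc]
      gcongr
    have h4 : a * b ≤ ε / 2 * b ^ 2 + a ^ 2 / (2 * ε) := by
      have : ε / 2 * b ^ 2 + a ^ 2 / (2 * ε) - a * b = (ε * b - a) ^ 2 / (2 * ε) := by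
        field_simp
        ring
      have h5 : 0 ≤ (ε * b - a) ^ 2 / (2 * ε) := by positivity
      linarith
    have : 0 ≤ a ^ p * (τ * lam ^ (1 - p)) := by positivity
    linarith

theorem dual {ι : Type} {a b : ι → ℝ} {c : ι → ℂ} {J : ℂ} {I τ B p : ℝ} (a0 : ∀ l, 0 ≤ a l)
    (b0 : ∀ l, 0 ≤ b l) (I0 : 0 < I) (t0 : 0 < τ) (B0 : 0 < B) (p1 : 1 ≤ p) (p2 : p ≤ 2)
    (bt : ∀ l, b l ≤ τ) (hb : ∀ T : Finset ι, ∑ l ∈ T, b l ^ 2 ≤ B)
    (ha : Summable fun l => a l ^ p) (hJ : HasSum c J) (IJ : I ≤ ‖J‖)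
    (hc : ∀ l, ‖c l‖ ≤ a l * b l) :
    I ^ p * τ ^ (p - 2) * B ^ (1 - p) / 3 ≤ ∑' l, a l ^ p := by
  have h1 : Summable fun l => b l ^ 2 := summable_of_sum_le (fun _ => by positivity) hb
  have h2 := h1.tsum_le_of_sum_le hb
  have l0 : 0 < τ * I / B := by positivity
  have h3 := IJ.trans (hJ.norm_le_of_bounded ((h1.hasSum.mul_left _).add (ha.hasSum.mul_right _))
    fun l => (hc l).trans (young (a0 l) (b0 l) (bt l) l0 (div_pos I0 B0) p1 p2))
  have h4 : (τ * I / B) ^ (2 - p) = τ * I / B * (τ * I / B) ^ (1 - p) := by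
    rw [show 2 - p = 1 + (1 - p) by ring, Real.rpow_add l0, Real.rpow_one]
  have h5 : I / B / 2 * ∑' l, b l ^ 2 ≤ I / 2 :=
    (mul_le_mul_of_nonneg_left h2 (by positivity)).trans_eq (by field_simp)
  have h6 : τ * (τ * I / B) ^ (1 - p) + (τ * I / B) ^ (2 - p) / (2 * (I / B))
      = 3 / 2 * (τ * (τ * I / B) ^ (1 - p)) := by
    rw [h4]
    field_simp
    ring
  have h7 : I ^ p * τ ^ (p - 2) * B ^ (1 - p) * (τ * (τ * I / B) ^ (1 - p)) = I := by
    have e1 : I ^ p * I ^ (1 - p) = I := by rw [← Real.rpow_add I0]; simp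
    have e2 : τ ^ (p - 2) * τ ^ (1 - p) * τ = 1 := by
      rw [← Real.rpow_add t0, ← Real.rpow_add_one t0.ne', show p - 2 + (1 - p) + 1 = 0 by ring,
        Real.rpow_zero]
    have e3 : B ^ (1 - p) ≠ 0 := by positivity
    rw [Real.div_rpow (by positivity) B0.le, Real.mul_rpow t0.le I0.le]
    calc _ = I ^ p * I ^ (1 - p) * (τ ^ (p - 2) * τ ^ (1 - p) * τ) := by field_simp
      _ = I := by rw [e1, e2, mul_one]
  rw [h6] at h3
  refine le_of_mul_le_mul_right ?_ (show 0 < τ * (τ * I / B) ^ (1 - p) by positivity)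
  linarith

theorem slice_pow {G : MvPowerSeries (Fin (d + 1)) ℝ} (hm' : m ≠ 0) {p : ℝ} (p1 : 1 ≤ p)
    (p2 : p ≤ 2) (hG : (Q0 d m : MvPowerSeries (Fin (d + 1)) ℝ) * G = P0 d N)
    (hp : Summable fun l : Fin d →₀ ℕ => |MvPowerSeries.coeff (Finsupp.cons k l) G| ^ p)
    {u : ℝ} (hu : 1 ≤ u) (k1 : u ^ (2 * m) ≤ k) (k2 : (k : ℝ) ≤ 2 * u ^ (2 * m)) :
    ((1 / (2 * u) * ((1 / (4 * u)) ^ N / 4 ^ m * (1 / 2))) ^ d) ^ p *
      ((77 * u / u ^ m) ^ d) ^ (p - 2) * ((8 : ℝ) ^ d) ^ (1 - p) / 3 ≤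
      ∑' l : Fin d →₀ ℕ, |MvPowerSeries.coeff (Finsupp.cons k l) G| ^ p := by
  have hs : ∀ k, Summable fun l : Fin d →₀ ℕ => |MvPowerSeries.coeff (Finsupp.cons k l) G| :=
    slices hG
  have u0 : 0 < u := one_pos.trans_le hu
  have hab : 1 / (2 * u) ≤ 1 / u := one_div_le_one_div_of_le u0 (by linarith)
  set ν : ℝ := -(m * k + N / 2) with hν
  have ac : Continuous (amp m N k) := by
    unfold amp
    fun_prop
  have hsum : ∀ θ : Fin d → ℝ, HasSum (fun l : Fin d →₀ ℕ =>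
      ((MvPowerSeries.coeff (Finsupp.cons k l) G : ℝ) : ℂ) * ∏ j, EE (l j + ν) k (θ j))
      (∏ j, (-Complex.I) ^ N * (amp m N k (θ j) : ℂ)) := fun θ => by
    have hv : ∀ i, Sv G i (fun j => zz (θ j)) (∑' l : Fin d →₀ ℕ,
        ((MvPowerSeries.coeff (Finsupp.cons i l) G : ℝ) : ℂ) * ∏ j, zz (θ j) ^ l j) := fun i =>
      Summable.hasSum (Summable.of_norm (by simpa [norm_zz] using hs i))
    have h2 := (hv k).mul_right (∏ j, EE ν k (θ j))
    rw [value_eq hG (fun j => (norm_zz _).le) hv k, ← prod_mul_distrib] at h2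
    simp only [hν, value_test] at h2
    refine h2.congr_fun fun l => ?_
    simp only [hν, mul_assoc, ← prod_mul_distrib, zz_pow_mul_EE]
  have hint := hasSum_integral_of_dominated_convergence
    (μ := Measure.pi fun _ : Fin d => volume.restrict (Set.Ioc (1 / (2 * u)) (1 / u)))
    (F := fun (l : Fin d →₀ ℕ) (θ : Fin d → ℝ) =>
      ((MvPowerSeries.coeff (Finsupp.cons k l) G : ℝ) : ℂ) * ∏ j, EE (l j + ν) k (θ j))
    (fun l _ => |MvPowerSeries.coeff (Finsupp.cons k l) G|)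
    (fun l => (continuous_const.mul (continuous_finsetProd _ fun j _ =>
      (continuous_EE (l j + ν) k).comp (continuous_apply j))).aestronglyMeasurable)
    (fun l => .of_forall fun θ => by simp [norm_EE]) (.of_forall fun _ => hs k)
    (integrable_const _) (.of_forall hsum)
  rw [integral_fintype_prod_eq_pow (fun θ : ℝ => (-Complex.I) ^ N * (amp m N k θ : ℂ)),
    Fintype.card_fin, ← intervalIntegral.integral_of_le hab] at hint
  refine dual (b := fun l : Fin d →₀ ℕ => ∏ j, ‖∫ θ in (1 / (2 * u))..(1 / u), EE (l j + ν) k θ‖)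
    (fun _ => abs_nonneg _) (fun _ => by positivity) (by positivity) (by positivity)
    (by positivity) p1 p2 (fun l => ?_) (fun T => ?_) hp hint ?_ fun l => ?_
  · exact (prod_le_prod (fun _ _ => norm_nonneg _) fun j _ => osc_bd _ hu k1).trans_eq
      (by rw [prod_const, card_univ, Fintype.card_fin])
  · simp only [← prod_pow, ← zz_pow_mul_EE]
    exact bes_prod (t := fun i => ‖∫ θ in (1 / (2 * u))..(1 / u), zz θ ^ i * EE ν k θ‖ ^ 2)
      (fun _ => by positivity) (bes (continuous_EE ν k) (norm_EE ν k) (by positivity) hab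
        ((div_le_one u0).2 hu)) T
  · rw [norm_pow, intervalIntegral.integral_const_mul, norm_mul, norm_pow, norm_neg, Complex.norm_I,
      one_pow, one_mul, intervalIntegral.integral_ofReal, Complex.norm_real, Real.norm_eq_abs]
    refine pow_le_pow_left₀ (by positivity) (le_trans ?_ (le_abs_self _)) _
    have := intervalIntegral.integral_mono_on (μ := volume) hab intervalIntegrable_const
      (ac.intervalIntegrable _ _) fun θ hθ => amp_bd hu hm' k2 hθ
    rw [intervalIntegral.integral_const, smul_eq_mul] at this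
    refine le_trans (le_of_eq (congrArg (· * _) ?_)) this
    field_simp
    norm_num
  · rw [integral_const_mul, integral_fintype_prod_eq_prod (fun j => EE (l j + ν) k), norm_mul,
      Complex.norm_real, Real.norm_eq_abs, norm_prod]
    simp only [intervalIntegral.integral_of_le hab, le_refl]

theorem sup_bd {u : ℝ} (hu : 1 ≤ u) (hm' : m ≠ 0) (k1 : u ^ (2 * m) ≤ k) {z : ℂ}
    (hz : ‖z‖ = 1) :
    ‖fn N z / fa m z * (fb m z / fa m z) ^ k‖ ≤ 2 ^ N * N.factorial / u ^ N := by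
  obtain ⟨θ, rfl⟩ := (Complex.norm_eq_one_iff z).1 hz
  have h1 := congrArg norm (value_test (m := m) (N := N) (k := k) θ)
  rw [norm_mul _ (EE _ _ _), norm_EE, mul_one, norm_mul (_ ^ N), norm_pow, norm_neg,
    Complex.norm_I, one_pow, one_mul, Complex.norm_real, Real.norm_eq_abs] at h1
  refine (le_of_eq h1).trans ?_
  have u0 : 0 < u := one_pos.trans_le hu
  set t := |sin (θ / 2)| with ht
  have t0 : 0 ≤ t := abs_nonneg _
  have t1 : t ^ (2 * m) ≤ 1 := pow_le_one₀ t0 (abs_sin_le_one _)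
  have e : (2 * sin (θ / 2)) ^ (2 * m) / 4 ^ m = t ^ (2 * m) := by
    rw [ht, (even_two_mul m).pow_abs, mul_pow, pow_mul (2 : ℝ), show (2 : ℝ) ^ 2 = 4 by norm_num,
      mul_div_cancel_left₀ _ (by positivity)]
  have h2 : (1 - t ^ (2 * m)) ^ k ≤ exp (-(u * t) ^ (2 * m)) := by
    refine (pow_le_pow_left₀ (sub_nonneg.2 t1) (Real.one_sub_le_exp_neg _) k).trans ?_
    rw [← Real.exp_nat_mul, Real.exp_le_exp, mul_pow, mul_neg, neg_le_neg_iff]
    gcongr
  have h3 : (u * t) ^ N * exp (-(u * t) ^ (2 * m)) ≤ N.factorial := by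
    have f1 : (1 : ℝ) ≤ N.factorial := by exact_mod_cast N.factorial_pos
    rw [Real.exp_neg, ← div_eq_mul_inv, div_le_iff₀ (exp_pos _)]
    rcases le_total (u * t) 1 with h | h
    · exact (pow_le_one₀ (by positivity) h).trans
        (one_le_mul_of_one_le_of_one_le f1 (Real.one_le_exp (by positivity)))
    · rw [← div_le_iff₀' (by positivity)]
      refine le_trans ?_ (Real.pow_div_factorial_le_exp _ (by positivity) N)
      gcongr
      exact le_self_pow₀ h (by omega)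
  rw [amp, e, abs_mul, abs_div, abs_pow, abs_mul, abs_two, ← ht,
    abs_of_nonneg (pow_nonneg (sub_nonneg.2 t1) k), abs_of_pos (by positivity : (0 : ℝ) < 4 ^ m),
    le_div_iff₀ (by positivity)]
  calc _ ≤ (2 * t) ^ N * exp (-(u * t) ^ (2 * m)) * u ^ N := by
        gcongr
        exact div_le_self (by positivity) (one_le_pow₀ (by norm_num))
    _ = 2 ^ N * ((u * t) ^ N * exp (-(u * t) ^ (2 * m))) := by
        rw [mul_pow, mul_pow u t N]
        ring
    _ ≤ _ := by gcongr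

open UnitAddTorus in
theorem sq_bd {G : MvPowerSeries (Fin (d + 1)) ℝ} (hm' : m ≠ 0)
    (hG : (Q0 d m : MvPowerSeries (Fin (d + 1)) ℝ) * G = P0 d N)
    {u : ℝ} (hu : 1 ≤ u) (k1 : u ^ (2 * m) ≤ k) (T : Finset (Fin d →₀ ℕ)) :
    ∑ l ∈ T, |MvPowerSeries.coeff (Finsupp.cons k l) G| ^ 2
      ≤ ((2 ^ N * N.factorial / u ^ N) ^ d) ^ 2 := by
  have hs : ∀ k, Summable fun l : Fin d →₀ ℕ => |MvPowerSeries.coeff (Finsupp.cons k l) G| :=
    slices hG
  obtain ⟨g, hg⟩ : ∃ g : (Fin d → UnitAddCircle) → ℂ, g = fun θ =>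
    ∏ j, fn N (e1 (θ j)) / fa m (e1 (θ j)) * (fb m (e1 (θ j)) / fa m (e1 (θ j))) ^ k := ⟨_, rfl⟩
  have gc : Continuous g := by
    have c1 : ∀ j, Continuous fun θ : Fin d → UnitAddCircle => e1 (θ j) := fun j =>
      cont_e1.comp (continuous_apply j)
    have c2 : ∀ t, fa m (e1 t) ≠ 0 := fun t =>
      norm_pos_iff.1 (one_pos.trans_le (one_le_fa (norm_e1 t).le))
    rw [hg]
    refine continuous_finsetProd _ fun j _ => ?_
    have c3 := c1 j
    refine (Continuous.div ?_ ?_ fun _ => c2 _).mul ((Continuous.div ?_ ?_ fun _ => c2 _).pow k) <;>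
      simp only [fn, fa, fb, fg] <;> fun_prop
  have hsum : ∀ θ : Fin d → UnitAddCircle, HasSum (fun l : Fin d →₀ ℕ =>
      ((MvPowerSeries.coeff (Finsupp.cons k l) G : ℝ) : ℂ) * mFourier (fun i => l i) θ) (g θ) :=
    fun θ => by
      have hv : ∀ i, Sv G i (fun j => e1 (θ j)) (∑' l : Fin d →₀ ℕ,
          ((MvPowerSeries.coeff (Finsupp.cons i l) G : ℝ) : ℂ) * ∏ j, e1 (θ j) ^ l j) := fun i =>
        Summable.hasSum (Summable.of_norm (by simpa [norm_e1] using hs i))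
      have h2 := hv k
      rw [value_eq hG (fun j => (norm_e1 _).le) hv k] at h2
      simpa only [Sv, hg, mFourier, ContinuousMap.coe_mk, fourier_nat] using h2
  have n1 : ∀ (κ : Fin d → ℤ) θ, ‖mFourier κ θ‖ = 1 := fun κ θ => by
    simp only [mFourier, ContinuousMap.coe_mk, norm_prod, norm_fourier, prod_const_one]
  have hcf : ∀ l : Fin d →₀ ℕ, cf g (fun i => l i)
      = ((MvPowerSeries.coeff (Finsupp.cons k l) G : ℝ) : ℂ) := fun l => by
    have h2 := hasSum_integral_of_dominated_convergence (μ := pm d)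
      (F := fun (l' : Fin d →₀ ℕ) θ => mFourier (-fun i => (l i : ℤ)) θ *
        (((MvPowerSeries.coeff (Finsupp.cons k l') G : ℝ) : ℂ) * mFourier (fun i => l' i) θ))
      (fun l _ => |MvPowerSeries.coeff (Finsupp.cons k l) G|)
      (fun l' => ((mFourier _).continuous.mul
        (continuous_const.mul (mFourier _).continuous)).aestronglyMeasurable)
      (fun l' => .of_forall fun θ => by simp [n1]) (.of_forall fun _ => hs k)
      (integrable_const _) (.of_forall fun θ => (hsum θ).mul_left _)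
    have h3 : ∀ l' : Fin d →₀ ℕ, ∫ θ, mFourier (-fun i => (l i : ℤ)) θ *
        (((MvPowerSeries.coeff (Finsupp.cons k l') G : ℝ) : ℂ) * mFourier (fun i => l' i) θ) ∂pm d
        = if l' = l then ((MvPowerSeries.coeff (Finsupp.cons k l) G : ℝ) : ℂ) else 0 :=
      fun l' => by
        have h4 := cf_one ((fun i => (l i : ℤ)) - fun i => (l' i : ℤ))
        simp only [cf, neg_sub', sub_neg_eq_add, mFourier_add, mul_one] at h4
        simp only [mul_left_comm (mFourier _ _)]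
        rw [integral_const_mul, h4]
        by_cases h : l' = l
        · simp [h]
        · rw [if_neg h, if_neg, mul_zero]
          exact fun e => h (Finsupp.ext fun i =>
            Nat.cast_injective (congrFun (sub_eq_zero.1 e) i).symm)
    simp only [h3] at h2
    exact h2.unique (hasSum_ite_eq l _)
  let φ : (Fin d →₀ ℕ) ↪ (Fin d → ℤ) := ⟨fun k i => k i, fun k k' e =>
    Finsupp.ext fun i => Nat.cast_injective (congrFun e i)⟩
  have h1 := bessel gc (T.map φ)
  rw [sum_map] at h1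
  refine le_trans (sum_le_sum fun l _ => le_of_eq ?_) (h1.trans ?_)
  · rw [show cf g (φ l) = _ from hcf l, Complex.norm_real, Real.norm_eq_abs]
  · refine (integral_mono (int_tor (gc.norm.pow 2)) (integrable_const
      (((2 ^ N * N.factorial / u ^ N) ^ d) ^ 2)) fun θ => ?_).trans_eq (by simp)
    refine pow_le_pow_left₀ (norm_nonneg _) ?_ 2
    rw [hg, norm_prod]
    exact (prod_le_prod (fun _ _ => norm_nonneg _) fun j _ => sup_bd hu hm' k1 (norm_e1 _)).trans_eq
      (by rw [prod_const, card_univ, Fintype.card_fin])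

theorem dual' {ι : Type} {a : ι → ℝ} {L W p : ℝ} (a0 : ∀ l, 0 ≤ a l) (L0 : 0 < L) (W0 : 0 < W)
    (p1 : p ≤ 1) (hb : ∀ T : Finset ι, ∑ l ∈ T, a l ^ 2 ≤ W) (h0 : Summable a)
    (ha : Summable fun l => a l ^ p) (hL : L ≤ ∑' l, a l) :
    L ^ (2 - p) * (2 * W) ^ (p - 1) / 2 ≤ ∑' l, a l ^ p := by
  have h1 : Summable fun l => a l ^ 2 := summable_of_sum_le (fun _ => by positivity) hb
  have h2 := h1.tsum_le_of_sum_le hb
  have l0 : 0 < 2 * W / L := by positivity
  have h3 := hL.trans (hasSum_le (fun l => show a l ≤ (2 * W / L)⁻¹ * a l ^ 2 +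
      a l ^ p * (2 * W / L) ^ (1 - p) from ?_) h0.hasSum
    ((h1.hasSum.mul_left _).add (ha.hasSum.mul_right _)))
  · have h5 : (2 * W / L)⁻¹ * ∑' l, a l ^ 2 ≤ L / 2 :=
      (mul_le_mul_of_nonneg_left h2 (by positivity)).trans_eq (by field_simp)
    have h7 : L ^ (2 - p) * (2 * W) ^ (p - 1) * (2 * W / L) ^ (1 - p) = L := by
      have e1 : L ^ (2 - p) = L * L ^ (1 - p) := by
        rw [show 2 - p = 1 + (1 - p) by ring, Real.rpow_add L0, Real.rpow_one]
      have e2 : (2 * W) ^ (p - 1) * (2 * W) ^ (1 - p) = 1 := by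
        rw [← Real.rpow_add (by positivity)]
        simp
      have e3 : L ^ (1 - p) ≠ 0 := by positivity
      rw [Real.div_rpow (by positivity) L0.le, e1]
      calc _ = L * ((2 * W) ^ (p - 1) * (2 * W) ^ (1 - p)) := by field_simp
        _ = L := by rw [e2, mul_one]
    refine le_of_mul_le_mul_right ?_ (show 0 < (2 * W / L) ^ (1 - p) by positivity)
    linarith
  · have a1 := a0 l
    rcases le_total (2 * W / L) (a l) with h | h
    · refine le_add_of_le_of_nonneg ?_ (by positivity)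
      rw [le_inv_mul_iff₀ l0, sq]
      gcongr
    · refine le_add_of_nonneg_of_le (by positivity) ?_
      rcases a1.eq_or_lt with e | a2
      · exact e.ge.trans (by positivity)
      have h4 : a l = a l ^ p * a l ^ (1 - p) := by rw [← Real.rpow_add a2]; simp
      exact h4.trans_le (mul_le_mul_of_nonneg_left (Real.rpow_le_rpow a1 h (sub_nonneg.2 p1))
        (by positivity))

theorem slice_all {G : MvPowerSeries (Fin (d + 1)) ℝ} (hm' : m ≠ 0) {p : ℝ} (p0 : 0 < p)
    (p2 : p ≤ 2) (hG : (Q0 d m : MvPowerSeries (Fin (d + 1)) ℝ) * G = P0 d N) :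
    ∃ c : ℝ, 0 < c ∧ ∀ (u : ℝ) (k : ℕ), 1 ≤ u → u ^ (2 * m) ≤ k → (k : ℝ) ≤ 2 * u ^ (2 * m) →
      (Summable fun l : Fin d →₀ ℕ => |MvPowerSeries.coeff (Finsupp.cons k l) G| ^ p) →
      c * u ^ (d * m * (2 - p) - d * p * N - 4 * d) ≤
        ∑' l : Fin d →₀ ℕ, |MvPowerSeries.coeff (Finsupp.cons k l) G| ^ p := by
  have e1 : ∀ u : ℝ, 0 < u → 1 / (2 * u) * ((1 / (4 * u)) ^ N / 4 ^ m * (1 / 2))
      = 1 / (4 * 4 ^ N * 4 ^ m) * u ^ (-(N + 1) : ℝ) := fun u u0 => by
    rw [Real.rpow_neg u0.le, Real.rpow_add_one u0.ne', Real.rpow_natCast, one_div_pow, mul_pow]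
    field_simp
    ring
  have e2 : ∀ u : ℝ, 0 < u → 77 * u / u ^ m = 77 * u ^ (1 - m : ℝ) := fun u u0 => by
    rw [Real.rpow_sub u0, Real.rpow_one, Real.rpow_natCast, mul_div_assoc]
  have d0 : (0 : ℝ) ≤ d := d.cast_nonneg
  rcases le_total 1 p with p1 | p1
  · refine ⟨((1 / (4 * 4 ^ N * 4 ^ m)) ^ d) ^ p * (77 ^ d) ^ (p - 2) * (8 ^ d) ^ (1 - p) / 3,
      by positivity, fun u k u1 k1 k2 hp => le_trans ?_ (slice_pow hm' p1 p2 hG hp u1 k1 k2)⟩
    have u0 : 0 < u := by linarith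
    have e3 : u ^ (d * m * (2 - p) - d * p * N - 4 * d : ℝ)
        ≤ ((u ^ (-(N + 1) : ℝ)) ^ d) ^ p * ((u ^ (1 - m : ℝ)) ^ d) ^ (p - 2) := by
      rw [← Real.rpow_mul_natCast u0.le, ← Real.rpow_mul_natCast u0.le, ← Real.rpow_mul u0.le,
        ← Real.rpow_mul u0.le, ← Real.rpow_add u0]
      exact Real.rpow_le_rpow_of_exponent_le u1 (by linarith)
    rw [e1 u u0, e2 u u0, mul_pow, mul_pow, Real.mul_rpow (by positivity) (by positivity),
      Real.mul_rpow (by positivity) (by positivity)]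
    exact (mul_le_mul_of_nonneg_left e3 (by positivity)).trans_eq (by ring)
  · refine ⟨((1 / (4 * 4 ^ N * 4 ^ m)) ^ d / 77 ^ d) ^ (2 - p) *
      (2 * ((2 ^ N * N.factorial) ^ d) ^ 2) ^ (p - 1) / 2, by positivity,
      fun u k u1 k1 k2 hp => ?_⟩
    have u0 : 0 < u := by linarith
    have h1 := slice_lower hm' hG (slices hG) u1 k1 k2
    rw [← div_le_iff₀ (by positivity)] at h1
    refine le_trans ?_ (dual' (fun _ => abs_nonneg _) (by positivity) (by positivity) p1
      (sq_bd hm' hG u1 k1) (slices hG k) hp h1)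
    have e3 : u ^ (d * m * (2 - p) - d * p * N - 4 * d : ℝ)
        ≤ ((u ^ (-(N + 1) : ℝ)) ^ d / (u ^ (1 - m : ℝ)) ^ d) ^ (2 - p) *
          (((u ^ (-N : ℝ)) ^ d) ^ 2) ^ (p - 1) := by
      rw [← Real.rpow_mul_natCast u0.le, ← Real.rpow_mul_natCast u0.le,
        ← Real.rpow_mul_natCast u0.le, ← Real.rpow_mul_natCast u0.le, ← Real.rpow_sub u0,
        ← Real.rpow_mul u0.le, ← Real.rpow_mul u0.le, ← Real.rpow_add u0]
      refine Real.rpow_le_rpow_of_exponent_le u1 ?_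
      push_cast
      linarith [mul_nonneg d0 p0.le]
    rw [e1 u u0, e2 u u0, div_eq_mul_inv _ (u ^ N), ← Real.rpow_natCast u N,
      ← Real.rpow_neg u0.le, mul_pow _ (u ^ (-(N + 1) : ℝ)), mul_pow _ (u ^ (1 - m : ℝ)),
      mul_pow _ (u ^ (-N : ℝ)), mul_pow _ ((u ^ (-N : ℝ)) ^ d), mul_div_mul_comm, ← mul_assoc 2,
      Real.mul_rpow (z := 2 - p) (by positivity) (by positivity),
      Real.mul_rpow (y := ((u ^ (-N : ℝ)) ^ d) ^ 2) (by positivity) (by positivity)]
    exact (mul_le_mul_of_nonneg_left e3 (by positivity)).trans_eq (by ring)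

theorem not_summable_pow {G : MvPowerSeries (Fin (d + 1)) ℝ} (hm' : m ≠ 0) {p : ℝ} (p0 : 0 < p)
    (p2 : p ≤ 2) (h : 0 < 2 * m + (d * m * (2 - p) - d * p * N - 4 * d))
    (hG : (Q0 d m : MvPowerSeries (Fin (d + 1)) ℝ) * G = P0 d N) :
    ¬ Summable fun κ => |MvPowerSeries.coeff κ G| ^ p := fun h0 => by
  have h1 : Summable fun x : ℕ × (Fin d →₀ ℕ) =>
      |MvPowerSeries.coeff (Finsupp.cons x.1 x.2) G| ^ p :=
    h0.comp_injective Finsupp.cons_injective2.uncurry
  set S := ∑' k, ∑' l : Fin d →₀ ℕ, |MvPowerSeries.coeff (Finsupp.cons k l) G| ^ p with hS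
  obtain ⟨c, c0, hc⟩ := slice_all hm' p0 p2 hG
  obtain ⟨u, u1, u2⟩ := ((Filter.eventually_ge_atTop 1).and ((((tendsto_rpow_atTop
    h).comp tendsto_natCast_atTop_atTop).const_mul_atTop c0).eventually_gt_atTop S)).exists
  replace u1 : (1 : ℝ) ≤ u := by exact_mod_cast u1
  have u0 : (0 : ℝ) < u := by linarith
  have h3 : ∑ k ∈ Ico (u ^ (2 * m)) (2 * u ^ (2 * m)),
      ∑' l : Fin d →₀ ℕ, |MvPowerSeries.coeff (Finsupp.cons k l) G| ^ p ≤ S :=
    h1.prod.sum_le_tsum _ fun k _ => tsum_nonneg fun l => by positivity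
  have h4 := (card_nsmul_le_sum (Ico (u ^ (2 * m)) (2 * u ^ (2 * m))) _ _ fun k hk =>
    hc u k u1 (by exact_mod_cast (mem_Ico.1 hk).1)
      (by exact_mod_cast (mem_Ico.1 hk).2.le) (h1.prod_factor k)).trans h3
  rw [Nat.card_Ico, two_mul (u ^ _), Nat.add_sub_cancel, nsmul_eq_mul, Nat.cast_pow,
    ← Real.rpow_natCast] at h4
  rw [Function.comp_apply, Real.rpow_add u0] at u2
  push_cast at h4
  linarith

theorem exists_pow {n r : ℕ} {β : ℝ≥0} (b1 : β ≤ 1) {p : ℝ} (p0 : 0 < p) (hn1 : n ≠ 1)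
    (hn : r + (β : ℝ) < n / p - (n + 1) / 2) :
    ∃ P Q : MvPolynomial (Fin n) ℝ, IsRelPrime P Q ∧ constantCoeff Q ≠ 0 ∧
      {z : Fin n → ℂ | (∀ i, ‖z i‖ = 1) ∧ aeval z P = 0 ∧ aeval z Q = 0}.Finite ∧
      Extends r β P Q ∧ ¬ PowSummable p P Q := by
  have s0 : (0 : ℝ) ≤ r + β := by positivity
  have n0 : (0 : ℝ) ≤ n := n.cast_nonneg
  have n1 : 1 < n := by
    have : n ≠ 0 := by
      rintro rfl
      rw [Nat.cast_zero, zero_div] at hn
      linarith
    omega
  have p2 : p ≤ 2 := by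
    by_contra h
    have := div_le_div_of_nonneg_left n0 two_pos (not_le.1 h).le
    linarith
  obtain ⟨d, rfl⟩ : ∃ d, n = d + 1 := ⟨n - 1, by omega⟩
  have d0 : (0 : ℝ) < d := by exact_mod_cast (by omega : 0 < d)
  obtain ⟨g, hg⟩ : ∃ g : ℝ, g = (d + 1) / p - d / 2 - (r + β + 1) := ⟨_, rfl⟩
  have g0 : 0 < g := by
    push_cast at hn
    linarith
  obtain ⟨m, hm⟩ := exists_nat_gt (3 * d / (p * g))
  have m0 : 0 < m := by exact_mod_cast (by positivity : 0 < 3 * d / (p * g)).trans hm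
  rw [div_lt_iff₀ (by positivity)] at hm
  obtain ⟨N, N1, N2⟩ : ∃ N : ℕ, 2 * m * (r + (β : ℝ) + 1) < d * N ∧
      (d : ℝ) * N ≤ 2 * m * (r + (β : ℝ) + 1) + d := by
    refine ⟨⌊2 * m * (r + (β : ℝ) + 1) / d⌋₊ + 1, ?_, ?_⟩
    · rw [← div_lt_iff₀' d0]
      exact_mod_cast Nat.lt_floor_add_one _
    · have := Nat.floor_le (by positivity : 0 ≤ 2 * m * (r + (β : ℝ) + 1) / d)
      rw [le_div_iff₀ d0] at this
      push_cast
      linarith
  have hz : ∀ z : Fin (d + 1) → ℂ, (∀ i, ‖z i‖ < 1) → (aeval z (Q0 d m) : ℂ) ≠ 0 :=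
    fun z h h0 => by
      have := h 0
      rw [Q0_zero m0.ne' (fun i => (h i).le) h0] at this
      simp at this
  have h0 := hz 0 (by simp)
  obtain ⟨P, Q, c, h1, h2, h3⟩ := UniqueFactorizationMonoid.exists_reduced_factors'
    (P0 d N) (Q0 d m) fun h => h0 (by rw [h, map_zero])
  have hQ : constantCoeff Q ≠ 0 := fun h => h0 (by
    rw [← h3, map_mul, aeval_zero (p := Q), h, map_zero, mul_zero])
  obtain ⟨h4, C, h5⟩ := smooth_ex (d := d) (N := N) (r := r) b1 m0 N1
  refine ⟨P, Q, h1, hQ, (Set.finite_singleton 1).subset fun z h => ?_, ⟨_, C, h4, h5,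
    fun z h _ => ?_⟩, not_summable_pow (N := N) m0.ne' p0 p2 ?_ ?_⟩
  · exact Q0_zero m0.ne' (fun i => (h.1 i).le) (by rw [← h3, map_mul, h.2.2, mul_zero])
  · have h6 := hz z h
    simp only [← h2, ← h3, map_mul] at h6 ⊢
    exact mul_div_mul_left _ _ (left_ne_zero_of_mul h6)
  · have e : p * (r + β + 1) = d + 1 - p * (d / 2) - p * g := by
      rw [hg]
      field_simp
      ring
    have h6 := mul_le_mul_of_nonneg_left N2 p0.le
    have h8 := mul_le_mul_of_nonneg_left p2 d0.le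
    have h9 : p * (2 * m * (r + β + 1)) = 2 * m * (d + 1 - p * (d / 2) - p * g) := by
      rw [← e]
      ring
    linarith
  · rw [← h2, ← h3, MvPolynomial.coe_mul, MvPolynomial.coe_mul, mul_assoc,
      mul_left_comm (Q : MvPowerSeries (Fin (d + 1)) ℝ),
      MvPowerSeries.mul_inv_cancel (Q : MvPowerSeries (Fin (d + 1)) ℝ) hQ, mul_one]

end Pool.Agent.Work.MP_a1ab50_an.P
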