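import Pool.Agent.Work.MP_a1ab50_an.T.Up
import Pool.Agent.Work.MP_a1ab50_an.P.Defs

/-! Smoothness of order at least `n / p - (n + 1) / 2` forces `p`-summability. -/

set_option autoImplicit false

namespace Pool.Agent.Work.MP_a1ab50_an.P

open Pool.Agent.Work.MP_a1ab50_an.T
open Filter Topology MeasureTheory Real Finset Metric MvPolynomial
open scoped NNReal Nat

variable {n : ℕ}

theorem holder_blk {f : ℂ → ℂ} {ρ : ℝ} (hf : DifferentiableOn ℂ f (ball 0 ρ)) (hρ : 1 < ρ)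
    {N r : ℕ} {a : ℝ}
    (h : Rk N (co f)) {C β : ℝ} (hC : 0 ≤ C) (b0 : 0 ≤ β) (b1 : β ≤ 1)
    (hn : a - 1 ≤ 2 * (r + β))
    (hH : ∀ w w' : ℂ, ‖w‖ = 1 → ‖w'‖ = 1 →
      ‖iteratedDeriv r f w - iteratedDeriv r f w'‖ ≤ C * ‖w - w'‖ ^ β) {M : ℕ} (hM : 1 ≤ M) :
    (M : ℝ) ^ a * ∑ m ∈ Ico M (2 * M), ‖co f (m + r)‖ ^ 2 ≤ (2 * (2 ^ r * N) : ℕ) * (4 * C ^ 2) := by
  have M1 : (1 : ℝ) ≤ M := by exact_mod_cast hM
  have M0 : (0 : ℝ) < M := by linarith
  obtain ⟨ζ, hζ⟩ : ∃ ζ, ζ = e1 ((1 / (4 * M) : ℝ) : UnitAddCircle) := ⟨_, rfl⟩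
  have z1 : ‖ζ‖ = 1 := by rw [hζ, norm_e1]
  have hd := diff_iter hf r
  set g := iteratedDeriv r f
  have hc : ∀ u : ℂ, ‖u‖ = 1 → Continuous fun t => g (u * e1 t) := fun u hu =>
    hd.continuousOn.comp_continuous (continuous_const.mul cont_e1) fun t => by
      rwa [mem_ball_zero_iff, norm_mul, hu, norm_e1, one_mul]
  have h1 : ∀ m : ℕ, fourierCoeff (fun t => g (ζ * e1 t) - g (1 * e1 t)) (m : ℤ) =
      (ζ ^ m - 1) * co g m := fun m => by
    have h2 := fc_nat hd hρ z1 m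
    have h3 := fc_nat hd hρ (ζ := 1) norm_one m
    simp only [fourierCoeff, smul_eq_mul, mul_sub] at h2 h3 ⊢
    have c1 : ∀ u : ℂ, ‖u‖ = 1 → Integrable (fun t => fourier (-m) t * g (u * e1 t)) hm :=
      fun u hu => int_of_cont ((fourier _).continuous.mul (hc _ hu))
    rw [integral_sub (c1 _ z1) (c1 _ norm_one), h2, h3]
    ring
  have h2 : ‖ζ - 1‖ ≤ 2 / M := by
    rw [hζ, e1_coe]
    refine norm_exp_I_mul_ofReal_sub_one_le.trans ?_
    rw [Real.norm_of_nonneg (by positivity), le_div_iff₀ M0]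
    field_simp
    linarith [pi_le_four]
  have h3 := hankel_block (g := fun t => g (ζ * e1 t) - g (1 * e1 t))
    ((hc _ z1).sub (hc _ norm_one))
    (σ := C * (2 / M) ^ β) (N := 2 * (2 ^ r * N)) (fun t => by
      refine (hH _ _ (by rw [norm_mul, z1, norm_e1, one_mul])
        (by rw [one_mul, norm_e1])).trans ?_
      rw [← sub_mul, norm_mul, norm_e1, mul_one]
      gcongr) (by simpa only [h1] using (rk_iter h r).rot ζ) M
  simp only [h1] at h3
  have h4 : (M : ℝ) ^ (2 * r) * ∑ m ∈ Ico M (2 * M), ‖co f (m + r)‖ ^ 2 ≤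
      ∑ m ∈ Ico M (2 * M), ‖(ζ ^ m - 1) * co g m‖ ^ 2 := by
    rw [mul_sum]
    refine sum_le_sum fun m hm' => ?_
    have m1 : (M : ℝ) ≤ m := by exact_mod_cast (mem_Ico.1 hm').1
    have m2 : (m : ℝ) ≤ 2 * M := by exact_mod_cast (mem_Ico.1 hm').2.le
    have h5 : 1 ≤ ‖ζ ^ m - 1‖ := by
      have h6 : ζ ^ m = e1 ((m / (4 * M) : ℝ) : UnitAddCircle) := by
        rw [hζ, e1_coe, e1_coe, ← Complex.exp_nat_mul]
        refine congrArg Complex.exp ?_
        push_cast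
        ring
      have h7 : |(m : ℝ) / (4 * M)| = m / (4 * M) := abs_of_nonneg (by positivity)
      have h8 := chord_coe (t := m / (4 * M)) (by rw [h7, div_le_iff₀ (by positivity)]; linarith)
      rw [h7, ← h6] at h8
      refine le_trans ?_ h8
      rw [← mul_div_assoc, le_div_iff₀ (by positivity)]
      linarith
    rw [pow_mul', ← mul_pow, norm_mul]
    refine pow_le_pow_left₀ (by positivity) ?_ 2
    refine le_trans (le_trans ?_ (co_iter r m)) (le_mul_of_one_le_left (norm_nonneg _) h5)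
    gcongr
  have h5 : (M : ℝ) ^ a ≤ (M ^ β) ^ 2 * (M * M ^ (2 * r)) := by
    rw [← pow_succ', ← Real.rpow_natCast, ← Real.rpow_natCast,
      ← Real.rpow_mul M0.le, ← Real.rpow_add M0]
    refine Real.rpow_le_rpow_of_exponent_le M1 ?_
    push_cast
    linarith
  have h6 : (M : ℝ) ^ β * (2 / M) ^ β ≤ 2 := by
    rw [← Real.mul_rpow M0.le (by positivity), mul_div_cancel₀ _ M0.ne']
    simpa using Real.rpow_le_rpow_of_exponent_le one_le_two b1
  calc _ ≤ (M ^ β) ^ 2 * (M * M ^ (2 * r)) * ∑ m ∈ Ico M (2 * M), ‖co f (m + r)‖ ^ 2 := by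
        gcongr
    _ = (M ^ β) ^ 2 * (M * (M ^ (2 * r) * ∑ m ∈ Ico M (2 * M), ‖co f (m + r)‖ ^ 2)) := by ring
    _ ≤ (M ^ β) ^ 2 * ((2 * (2 ^ r * N) : ℕ) * (C * (2 / M) ^ β) ^ 2) :=
        mul_le_mul_of_nonneg_left ((mul_le_mul_of_nonneg_left h4 M0.le).trans h3) (by positivity)
    _ = (2 * (2 ^ r * N) : ℕ) * (((M : ℝ) ^ β * (2 / M) ^ β) ^ 2 * C ^ 2) := by ring
    _ ≤ _ := by
        gcongr
        exact (pow_le_pow_left₀ (by positivity) h6 2).trans_eq (by norm_num)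

theorem slice_bd {P Q R : MvPolynomial (Fin n) ℝ} {F : (Fin n → ℂ) → ℂ} {r : ℕ} {C β : ℝ≥0}
    (hF : ContDiffOn ℝ r F (polydisc n))
    (hH : HolderOnWith C β (iteratedFDerivWithin ℝ r F (polydisc n)) (polydisc n))
    (e : ∀ z ∈ polydisc n, aeval z Q * F z = aeval z P) (b1 : β ≤ 1)
    {a : ℝ} (hn : a - 1 ≤ 2 * (r + β)) (j : Fin n) {K : ℝ} (hK : 0 < K)
    (hR : ∀ (z : Fin n → ℂ) (w : ℂ), aeval (Function.update z j w) R = aeval z R)
    (hl : ∀ z ∈ polydisc n, ‖(aeval z R : ℂ)‖ ≤ K * ‖(aeval z Q : ℂ)‖) :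
    ∃ A : ℝ, 0 ≤ A ∧ ∀ θ, (aeval (ex θ) R : ℂ) ≠ 0 →
      (∀ m < 0, sl (fun θ => F (ex θ)) j m θ = 0) ∧ ∀ M : ℕ, 1 ≤ M →
        (M : ℝ) ^ a * ∑ m ∈ Ico M (2 * M), ‖sl (fun θ => F (ex θ)) j (m + r : ℕ) θ‖ ^ 2 ≤
          A * min 1 (1 / (‖(aeval (ex θ) R : ℂ)‖ ^ (2 * (2 * r + 3 + 2)) * M)) := by
  obtain ⟨L, L0, hL⟩ := lip_aeval Q
  obtain ⟨B, B0, hB⟩ := bdd_aeval P
  obtain ⟨Λ, Λ0, hΛ⟩ := bdd_aeval R
  obtain ⟨D, hD⟩ := slice_poly P
  obtain ⟨E, hE⟩ := slice_poly Q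
  obtain ⟨c, c0, c1, c2⟩ : ∃ c : ℝ, 0 < c ∧ c * Λ ≤ 1 ∧ c * (4 * L * K) ≤ 1 :=
    ⟨min (1 / Λ) (1 / (4 * L * K)), by positivity, (le_div_iff₀ Λ0).1 (min_le_left _ _),
      (le_div_iff₀ (by positivity)).1 (min_le_right _ _)⟩
  refine ⟨max ((2 * (2 ^ r * (max D E + 1)) : ℕ) * (4 * (C : ℝ) ^ 2))
    ((B * (2 * K) * (2 * r + 3 + 1)! * (2 / c) ^ (2 * r + 3 + 1)) ^ 2), by positivity, fun θ h0 => ?_⟩
  set lam := ‖(aeval (ex θ) R : ℂ)‖ with hlam
  have l0 : 0 < lam := norm_pos_iff.2 h0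
  set x := Function.update (ex θ) j 0
  set v : Fin n → ℂ := Pi.single j (ex θ j)
  have v1 : ‖v‖ = 1 := by rw [Pi.norm_single, ex, norm_e1]
  have u1 : ∀ w : ℂ, x + w • v = Function.update (ex θ) j (ex θ j * w) := fun w => by
    funext i
    by_cases h : i = j <;> simp [x, v, h, mul_comm]
  have u2 : ∀ (w : ℂ) (a : ℝ), 1 ≤ a → ‖w‖ ≤ a → ∀ i, ‖(x + w • v) i‖ ≤ a := fun w a a1 a2 i => by
    rw [u1]
    by_cases h : i = j
    · rwa [h, Function.update_self, norm_mul, ex, norm_e1, one_mul]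
    · rwa [Function.update_of_ne h, ex, norm_e1]
  have u3 : ∀ w : ℂ, ‖w‖ ≤ 3 → ‖x + w • v‖ ≤ 3 := fun w hw =>
    (pi_norm_le_iff_of_nonneg (by norm_num)).2 (u2 w 3 (by norm_num) hw)
  have u4 : ∀ w ∈ closedBall (0 : ℂ) 1, x + w • v ∈ polydisc n := fun w hw =>
    u2 w 1 le_rfl (mem_closedBall_zero_iff.1 hw)
  have u5 : ∀ w w' : ℂ, ‖x + w • v - (x + w' • v)‖ = ‖w - w'‖ := fun w w' => by
    rw [add_sub_add_left_eq_sub, ← sub_smul, norm_smul, v1, mul_one]
  have d0 : 0 < c * lam := by positivity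
  have d1 : c * lam ≤ 1 := le_trans (mul_le_mul_of_nonneg_left (hΛ _ ((pi_norm_le_iff_of_nonneg
    (by norm_num)).2 fun i => (ex_mem θ i).trans (by norm_num))) c0.le) c1
  have q1 : ∀ w : ℂ, ‖w‖ ≤ 1 + 2 * (c * lam) →
      lam / (2 * K) ≤ ‖(aeval (x + w • v) Q : ℂ)‖ := fun w hw => by
    set w' := w / ((1 + 2 * (c * lam) : ℝ) : ℂ) with hw'
    have h1 : ‖w'‖ ≤ 1 := by
      rwa [hw', norm_div, Complex.norm_real, Real.norm_of_nonneg (by positivity),
        div_le_one (by positivity)]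
    have h2 : ‖w' - w‖ ≤ 2 * (c * lam) := by
      have : w' - w = w' * ((-(2 * (c * lam)) : ℝ) : ℂ) := by
        have : ((1 + 2 * (c * lam) : ℝ) : ℂ) ≠ 0 := Complex.ofReal_ne_zero.2 (by positivity)
        have h2 : w = w' * ((1 + 2 * (c * lam) : ℝ) : ℂ) := (div_mul_cancel₀ w this).symm
        push_cast at h2 ⊢
        linear_combination -h2
      rw [this, norm_mul, Complex.norm_real, norm_neg, Real.norm_of_nonneg (by positivity)]
      exact mul_le_of_le_one_left (by positivity) h1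
    have h3 := hl _ (u4 w' (mem_closedBall_zero_iff.2 h1))
    have h4 := hL _ _ (u3 w' (by linarith only [h1])) (u3 w (by linarith only [hw, d1]))
    rw [u5] at h4
    rw [u1, hR, ← u1, ← hlam] at h3
    have h5 := norm_sub_norm_le (aeval (x + w' • v) Q : ℂ) (aeval (x + w • v) Q)
    have h6 : L * ‖w' - w‖ ≤ L * (2 * (c * lam)) := mul_le_mul_of_nonneg_left h2 L0.le
    have h7 := mul_le_mul_of_nonneg_right c2 l0.le
    rw [div_le_iff₀ (mul_pos two_pos hK)]
    linarith only [h3, h7, mul_le_mul_of_nonneg_left (h5.trans (h4.trans h6)) hK.le]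
  have q2 : ∀ w : ℂ, ‖w‖ ≤ 1 + 2 * (c * lam) → (aeval (x + w • v) Q : ℂ) ≠ 0 := fun w hw =>
    norm_pos_iff.1 (lt_of_lt_of_le (by positivity) (q1 w hw))
  set f : ℂ → ℂ := fun w => aeval (x + w • v) P / aeval (x + w • v) Q with hf
  have a1 : ∀ w : ℂ, ‖w‖ ≤ 1 + 2 * (c * lam) → AnalyticAt ℂ f w := fun w hw => by
    have : AnalyticAt ℂ (fun w : ℂ => x + w • v) w := by fun_prop
    exact ((an_aeval P _).comp this).div ((an_aeval Q _).comp this) (q2 w hw)
  have a2 : DifferentiableOn ℂ f (ball 0 (1 + 2 * (c * lam))) := fun w hw =>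
    (a1 w (mem_ball_zero_iff.1 hw).le).differentiableAt.differentiableWithinAt
  have a3 : ∀ w ∈ closedBall (0 : ℂ) 1, f w = F (x + w • v) := fun w hw => by
    have := q2 w (by linarith [mem_closedBall_zero_iff.1 hw])
    simp only [hf]
    rw [← e _ (u4 w hw), mul_div_cancel_left₀ _ this]
  have t1 : ∀ t, e1 t ∈ closedBall (0 : ℂ) 1 := fun t => mem_closedBall_zero_iff.2 (norm_e1 t).le
  have a4 : ∀ m, sl (fun θ => F (ex θ)) j m θ = fourierCoeff (fun t => f (e1 t)) m := fun m => by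
    refine congrArg (fun g => fourierCoeff g m) (funext fun t => ?_)
    rw [a3 _ (t1 t), u1]
    refine congrArg F (funext fun i => ?_)
    by_cases h : i = j <;> simp [ex, h, e1_add]
  have r1 : 1 < 1 + 2 * (c * lam) := by linarith
  refine ⟨fun m hm' => by rw [a4, fc_neg a2 r1 hm'], fun M hM => ?_⟩
  simp only [a4, fc_nat' a2 r1]
  rw [mul_min_of_nonneg _ _ (by positivity), mul_one]
  refine le_min (le_trans ?_ (le_max_left _ _)) ?_
  · obtain ⟨p, p1, p2⟩ := hD x v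
    obtain ⟨q, q3, q4⟩ := hE x v
    have h1 := rk_rat (g := fun t => f (e1 t)) (a2.continuousOn.comp_continuous cont_e1 fun t => by
        rwa [mem_ball_zero_iff, norm_e1]) (p1.trans (le_max_left D E)) (q3.trans (le_max_right D E))
      (by rw [Polynomial.coeff_zero_eq_eval_zero, q4]; exact q2 0 (by simp; positivity))
      fun t => by rw [a3 _ (t1 t), p2, q4, e _ (u4 _ (t1 t))]
    simp only [fc_nat' a2 r1] at h1
    refine holder_blk a2 r1 h1 C.2 β.2 b1 hn (fun w w' h2 h3 => ?_) hM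
    have h4 := mem_closedBall_zero_iff.2 h2.le
    have h5 := mem_closedBall_zero_iff.2 h3.le
    have h6 : ∀ w ∈ closedBall (0 : ℂ) 1, AnalyticAt ℂ f w := fun w hw =>
      a1 w (by linarith [mem_closedBall_zero_iff.1 hw])
    have h7 := hH.dist_le (u4 w h4) (u4 w' h5)
    rw [dist_eq_norm, dist_eq_norm, u5] at h7
    rw [slice_deriv hF u4 h6 a3 h4, slice_deriv hF u4 h6 a3 h5,
      ← sub_apply]
    refine (ContinuousMultilinearMap.le_opNorm _ _).trans ?_
    simpa [v1] using h7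
  · have M1 : (1 : ℝ) ≤ M := by exact_mod_cast hM
    have h9 : (M : ℝ) ^ a ≤ M ^ (2 * r + 3) := by
      rw [← Real.rpow_natCast]
      refine Real.rpow_le_rpow_of_exponent_le M1 ?_
      have : (β : ℝ) ≤ 1 := b1
      push_cast
      linarith
    refine (mul_le_mul_of_nonneg_right h9 (by positivity)).trans ?_
    refine (decay_block d0 d1 a2 (B := B * (2 * K) / lam) (fun w hw => ?_) (2 * r + 3) r hM).trans ?_
    · simp only [hf]
      rw [norm_div, ← div_div_eq_mul_div]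
      exact div_le_div₀ B0.le (hB _ (u3 w (by linarith))) (by positivity) (q1 w (by linarith))
    · refine le_trans (le_of_eq ?_) (mul_le_mul_of_nonneg_right (le_max_right _ _) (by positivity))
      rw [div_pow, div_pow, mul_pow c]
      field_simp
      ring

theorem pow_summable_le {P Q : MvPolynomial (Fin n) ℝ} {r : ℕ} {β : ℝ≥0} (b1 : β ≤ 1) {p : ℝ}
    (p0 : 0 < p) (p2 : p ≤ 2) (hn : (n : ℝ) / p - (n + 1) / 2 ≤ r + β) (h : IsRelPrime P Q)
    (hQ : constantCoeff Q ≠ 0) (hE : Extends r β P Q) : PowSummable p P Q := by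
  obtain ⟨F, C, hF, hH, e⟩ := hE
  obtain ⟨q, hq⟩ : ∃ q, q = 2 / p := ⟨_, rfl⟩
  have q1 : 1 ≤ q := by rw [hq, le_div_iff₀ p0]; linarith
  have q0 : 0 < q := by linarith
  have pq : p * q = 2 := by rw [hq]; field_simp
  have ha : n * (q - 1) - 1 ≤ 2 * (r + (β : ℝ)) := by
    have : (n : ℝ) * q = 2 * (n / p) := by rw [hq]; ring
    linarith
  have e' : ∀ z ∈ polydisc n, aeval z Q * F z = aeval z P := fun z hz =>
    mul_eq_of_ext hQ hF.continuousOn e hz
  choose R K R0 K0 hR hl using lower_bound h hF.continuousOn e'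
  choose A A0 hA using fun j => slice_bd hF hH e' b1 ha j (K0 j) (hR j) (hl j)
  have hG : Continuous fun θ => F (ex θ) := hF.continuousOn.comp_continuous cont_ex ex_mem
  have h1 := coeff_eq hQ hG (fun k j hk => cf_zero hG (j := j)
    ((ae_ne (R0 j)).mono fun θ h0 => (hA j θ h0).1 _ hk)) fun θ => e' _ (ex_mem θ)
  unfold PowSummable
  simp only [h1]
  refine summable_shell (fun _ => by positivity) r fun j => ?_
  obtain ⟨C', ω, C0, ω0, ω1, hω⟩ := int_min (R0 j) (2 * (2 * r + 3 + 2))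
  have a0 := A0 j
  refine ⟨fun s => (((2 + r) ^ n) ^ (q - 1) * (A j + 1) * C' ^ 2) ^ q⁻¹ * ((ω ^ 2) ^ q⁻¹) ^ s,
    (summable_geometric_of_lt_one (by positivity) (Real.rpow_lt_one (by positivity)
      (pow_lt_one₀ ω0 ω1 two_ne_zero) (by positivity))).mul_left _, fun s T hT => ?_⟩
  have h2 := hω s (fun θ => ((2 ^ s : ℕ) : ℝ) ^ (n * (q - 1)) / (A j + 1) *
      ∑ m ∈ Ico (2 ^ s) (2 * 2 ^ s), ‖sl (fun θ => F (ex θ)) j (m + r : ℕ) θ‖ ^ 2)
    (continuous_const.mul (continuous_finsetSum _ fun m _ => (cont_sl hG j _).norm.pow 2))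
    fun θ h0 => by
      have h3 := (hA j θ h0).2 (2 ^ s) Nat.one_le_two_pow
      rw [div_mul_eq_mul_div, div_le_iff₀' (by positivity)]
      refine h3.trans ?_
      push_cast
      gcongr
      linarith
  rw [integral_const_mul, div_mul_eq_mul_div, div_le_iff₀' (by positivity)] at h2
  have h3 := bessel_sl hG j _ r T fun k hk => (hT k hk).2
  have h4 : (T.card : ℝ) ≤ (2 + r) ^ n * ((2 ^ s : ℕ) : ℝ) ^ n := by
    rw [← mul_pow]
    exact_mod_cast card_box T fun k hk i => by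
      obtain ⟨h4, m, h5, h6⟩ := hT k hk
      have := h4 i
      have := (mem_Ico.1 h5).2
      have := Nat.le_mul_of_pos_right r (Nat.two_pow_pos s)
      rw [add_mul]
      omega
  have h5 := Real.rpow_sum_le_const_mul_sum_rpow_of_nonneg T
    (f := fun k : Fin n →₀ ℕ => ‖cf (fun θ => F (ex θ)) fun i => k i‖ ^ p) q1
    fun _ _ => by positivity
  simp only [← Real.rpow_mul (norm_nonneg _), pq, Real.rpow_two] at h5
  beta_reduce
  rw [Real.rpow_pow_comm (by positivity), ← Real.mul_rpow (by positivity) (by positivity),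
    Real.le_rpow_inv_iff_of_pos (by positivity) (by positivity) q0]
  refine h5.trans ((mul_le_mul (Real.rpow_le_rpow (by positivity) h4 (by linarith)) h3
    (by positivity) (by positivity)).trans ?_)
  rw [Real.mul_rpow (by positivity) (by positivity), mul_assoc, mul_assoc, mul_assoc,
    ← Real.rpow_natCast_mul (by positivity : (0 : ℝ) ≤ (2 ^ s : ℕ)), pow_right_comm, ← mul_pow]
  gcongr

theorem pow_summable {P Q : MvPolynomial (Fin n) ℝ} {r : ℕ} {β : ℝ≥0} (b1 : β ≤ 1) {p : ℝ}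
    (p0 : 0 < p) (hn : (n : ℝ) / p - (n + 1) / 2 ≤ r + β) (h : IsRelPrime P Q)
    (hQ : constantCoeff Q ≠ 0) (hE : Extends r β P Q) : PowSummable p P Q := by
  rcases le_total p 2 with p2 | p2
  · exact pow_summable_le b1 p0 p2 hn h hQ hE
  have h1 := pow_summable_le b1 two_pos le_rfl (by
    have : (0 : ℝ) ≤ r + β := by positivity
    linarith) h hQ hE
  refine h1.of_norm_bounded_eventually ?_
  filter_upwards [h1.tendsto_cofinite_zero.eventually (gt_mem_nhds one_pos)] with k hk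
  rw [Real.norm_of_nonneg (by positivity)]
  refine Real.rpow_le_rpow_of_exponent_ge' (abs_nonneg _) ?_ two_pos.le p2
  rw [Real.rpow_two] at hk
  exact (pow_lt_one_iff_of_nonneg (abs_nonneg _) two_ne_zero).1 hk |>.le

theorem extends_one {P Q : MvPolynomial (Fin 1) ℝ} {r : ℕ} {β : ℝ≥0} (h : IsRelPrime P Q)
    (hQ : constantCoeff Q ≠ 0) (hE : Extends r β P Q) (s : ℕ) : Extends s 0 P Q := by
  obtain ⟨F, C, hF, hH, e⟩ := hE
  obtain ⟨R, K, R0, K0, hR, hl⟩ := lower_bound h hF.continuousOn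
    (fun z hz => mul_eq_of_ext hQ hF.continuousOn e hz) 0
  obtain ⟨θ, hθ⟩ := (ae_ne R0).exists
  have h1 : ContDiffOn ℝ s (fun z => (aeval z P : ℂ) / aeval z Q) (polydisc 1) := fun z hz => by
    refine (((an_aeval P z).div (an_aeval Q z) fun h0 => hθ ?_).contDiffAt.restrict_scalars
      ℝ).contDiffWithinAt
    have h2 := hl z hz
    rw [h0, norm_zero, mul_zero, norm_le_zero_iff, ← hR z (ex θ 0)] at h2
    rwa [← show Function.update z 0 (ex θ 0) = ex θ from funext fun i => by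
      rw [Subsingleton.elim i 0, Function.update_self]]
  obtain ⟨B, hB⟩ := Metric.isBounded_iff.1 (compact_polydisc.image_of_continuousOn
    (h1.continuousOn_iteratedFDerivWithin le_rfl unique_polydisc)).isBounded
  refine ⟨_, B.toNNReal, h1, fun x hx y hy => ?_, fun _ _ _ => rfl⟩
  rw [NNReal.coe_zero, ENNReal.rpow_zero, mul_one, edist_dist]
  exact ENNReal.ofReal_le_ofReal (hB (Set.mem_image_of_mem _ hx) (Set.mem_image_of_mem _ hy))

theorem pow_summable_one {P Q : MvPolynomial (Fin 1) ℝ} {r : ℕ} {β : ℝ≥0} {p : ℝ} (p0 : 0 < p)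
    (h : IsRelPrime P Q) (hQ : constantCoeff Q ≠ 0) (hE : Extends r β P Q) :
    PowSummable p P Q := by
  refine pow_summable zero_le_one p0 ?_ h hQ (extends_one h hQ hE ⌈1 / p⌉₊)
  have := Nat.le_ceil (1 / p)
  push_cast
  linarith

end Pool.Agent.Work.MP_a1ab50_an.P
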